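import Pool.Agent.helper90.FL.Spec

set_option autoImplicit false

namespace Pool.Agent.helper90.FL

open Finset Polynomial
open scoped Classical

theorem POL (h0 : CN0_stmt) (h1 : CN1_stmt) (h2 : CN2_stmt) : POL_stmt := by
  intro V E _ _ s t A B
  obtain ⟨n, hn⟩ : ∃ n, A.card = n := ⟨_, rfl⟩
  induction n generalizing A B with
  | zero =>
    have hA : A = ∅ := card_eq_zero.mp hn
    subst hA
    refine ⟨1, fun q _ => ?_⟩
    rw [h0 V E s t q B, eval_one]
    norm_num
  | succ n ih =>
    obtain ⟨e, he⟩ : A.Nonempty := card_pos.mp (by omega)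
    have hc : (A.erase e).card = n := by rw [card_erase_of_mem he, hn]; rfl
    obtain ⟨F, hF⟩ := ih (A.erase e) B hc
    by_cases hl : Lp s t B e
    · refine ⟨(X - 1) * F, fun q hq => ?_⟩
      rw [h1 V E s t q A B e hq he hl, eval_mul, eval_sub, eval_X, eval_one, hF q hq]
      push_cast [Nat.cast_sub hq]
      ring
    · obtain ⟨G, hG⟩ := ih (A.erase e) (insert e B) hc
      refine ⟨G - F, fun q hq => ?_⟩
      have h3 := h2 V E s t q A B e hq he hl
      have h4 : (N s t q A B : ℤ) + (N s t q (A.erase e) B : ℤ) = (N s t q (A.erase e) (insert e B) : ℤ) := by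
        exact_mod_cast h3
      rw [eval_sub, hF q hq, hG q hq]
      linarith

end Pool.Agent.helper90.FL
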